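import Pool.Agent.X8.BC2

/-! A graph of minimum degree two whose bnr-independence number exceeds its upper broadcast
number. -/

namespace Pool.Agent.Results.MP_99edab_co.MinDegreeTwo

open Pool.Agent.X8.BC

/-- There is a connected graph `G` (on 12 vertices) with all degrees at least 2 and
`Γ_b(G) < α_bnr(G)`. -/
theorem result : ∃ G : SimpleGraph (Fin 12), G.Connected ∧
    (∀ v, 2 ≤ (G.neighborSet v).ncard) ∧ upperB G < alphaBnr G := by
  refine ⟨G12, two12.2.1, ?_, lt_of_le_of_lt upper12 (lt_of_lt_of_le (by norm_num) alpha12)⟩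
  intro v
  have h := deg12 v
  rw [← SimpleGraph.card_neighborSet_eq_degree, ← Nat.card_eq_fintype_card,
    Nat.card_coe_set_eq] at h
  exact h

end Pool.Agent.Results.MP_99edab_co.MinDegreeTwo
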